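import Mathlib
import Pool.Agent.R298.BC.Main
import Pool.Agent.R298.BC.Exist

/-!
Isometric extensions over intermediate W*-dynamical systems.

The definitions used (`Sys`, `IsSub`, `Sys.sp`, `Sys.e`, `Sys.basic`, `IsBar`, `IsUModule`,
`IsometricExt`) are in `Pool.Agent.R298.BC.Defs`.
-/

set_option autoImplicit false

open scoped InnerProductSpace ENNReal

namespace Pool.Agent.Results.MP_286868_an.Intermediate

open Pool.Agent.R298.BC

/-- (1) For every subsystem `F` of a system the trace `μ̄` on `⟨A, e_F⟩` exists and (2) it is unique on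
the positive elements of `⟨A, e_F⟩`. (3) If `F ⊆ G ⊆ A` are subsystems and `𝐀` is an isometric
extension of `𝐅`, then `𝐀` is an isometric extension of `𝐆`. -/
theorem result (H : Type) [NormedAddCommGroup H] [InnerProductSpace ℂ H] [CompleteSpace H]
    (S : Sys H) :
    (∀ F : VonNeumannAlgebra H, IsSub S F → ∃ τ : (H →L[ℂ] H) → ℝ≥0∞, IsBar S F τ) ∧
    (∀ F : VonNeumannAlgebra H, IsSub S F → ∀ τ τ' : (H →L[ℂ] H) → ℝ≥0∞,
      IsBar S F τ → IsBar S F τ' → ∀ T ∈ S.basic F, 0 ≤ T → τ T = τ' T) ∧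
    (∀ F G : VonNeumannAlgebra H, IsSub S F → IsSub S G → (∀ x ∈ F, x ∈ G) →
      ∀ τF τG : (H →L[ℂ] H) → ℝ≥0∞, IsBar S F τF → IsBar S G τG →
        IsometricExt S F τF → IsometricExt S G τG) :=
  ⟨fun _ hF => exists_bar hF.le,
    fun _ hF _ _ h h' _ hT hT0 => bar_unique hF.le h h' hT hT0,
    fun _ _ hF hG hFG _ _ hτF hτG h => main hF hG hFG hτF hτG h⟩

end Pool.Agent.Results.MP_286868_an.Intermediate
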